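import Mathlib
import Pool.Agent.H281K.Reduce

/-!
# The Komlós problem: reduction to separated families, and families with small entropy

(1) For every constant `K`, Komlós's conjecture is equivalent to its restriction to the families of
vectors with `‖v_i - v_j‖₁ > K` and `‖v_i + v_j‖₁ > K` for all `i ≠ j`: if these have signings of
value at most `R`, then all families in the unit ball have signings of value at most `K + R`
(`K ≥ 0`).

For a family of vectors in the Euclidean unit ball of `ℝ^d` let `N_l` be the number of balls of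
radius `2^(-l)` which are needed to cover the family up to signs (each vector or its negative is in
one of the balls).

(2) If all families of `n` vectors have signings of value at most `B(n)`, then the given family has
signings of value at most `B(N_0) + 4 ∑_l 2^(-l-1) B(N_{l+1}) + η` for every `η > 0`.

(3) Let at most `P` of the vectors be pairwise separated by more than `K ≥ 0` in the `ℓ₁` norm, up
to signs, as in (1) (for instance `K = 0` and `P = n`). There is a signing of value at most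
`K + C ∑_l 2^(-l) (1 + log min(N_l, P))^(1/4)`, for an absolute constant `C`, whatever the
dimension and the number of vectors are.

(4) Komlós's conjecture holds uniformly for the families with entropy of exponent `p < 4`: if the
logarithm of the covering number is at most `A ρ^(-p)` for all radii `ρ ≤ 1`, then there is a
signing of value at most `C (1 + A)^(1/4) / (4 - p)`.

(5) Let `φ_1, …, φ_M` be maps from the cube `[0,1]^k` to `ℝ^d` with
`‖φ_a(x) - φ_a(y)‖ ≤ L |x - y|^α`, `0 < α ≤ 1`, `L ≥ 1` (`d` is arbitrary). All families of vectors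
of the unit ball which lie on the images of these maps have signings of value at most
`C ((1 + k) (1 + log L) / α + log M)^(1/4)`. For instance the vectors on a curve which is Lipschitz
with constant `L` have signings of value at most `C (1 + log L)^(1/4)`.

Proof. Group the vectors into pairs of vectors of the same ball of radius `2^(-l)` (up to signs)
and at most `N_l` single vectors; the differences of the pairs are short, so that their signing
costs little; continue with the single vectors and the larger radius `2^(1-l)`. For `B` we use the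
bound `C (1 + log n)^(1/4)` for arbitrary families. Differences of `ℓ₁` norm at most `K` have
signings of value at most `K` (start file `BeckFialaBoundT`); this gives (1).
-/

set_option autoImplicit false

namespace Pool.Agent.Results.MP_c81d26_co.EntropyCondition

open Finset

/-- The vectors `v_1, …, v_n` lie in the closed Euclidean unit ball of `ℝ^d`. -/
def InBall {n d : ℕ} (v : Fin n → Fin d → ℝ) : Prop := ∀ i, ∑ k, v i k ^ 2 ≤ 1

/-- There is a signing of `v_1, …, v_n` of value at most `R`. -/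
def HasSigning {n d : ℕ} (v : Fin n → Fin d → ℝ) (R : ℝ) : Prop :=
  ∃ ε : Fin n → ℝ, (∀ i, ε i = 1 ∨ ε i = -1) ∧ ∀ k, |∑ i, ε i * v i k| ≤ R

/-- There are `N` balls of radius `ρ` such that, for every `i`, the vector `v_i` or the vector
`-v_i` lies in one of them. -/
def Covered {n d : ℕ} (v : Fin n → Fin d → ℝ) (N : ℕ) (ρ : ℝ) : Prop :=
  ∃ z : Fin N → Fin d → ℝ, ∀ i, ∃ a,
    (∑ k, (v i k - z a k) ^ 2 ≤ ρ ^ 2) ∨ (∑ k, (v i k + z a k) ^ 2 ≤ ρ ^ 2)

/-- The vectors of index `i` and `j` are separated by more than `K` in the `ℓ₁` norm, up to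
signs. -/
def Separated {n d : ℕ} (v : Fin n → Fin d → ℝ) (K : ℝ) (i j : Fin n) : Prop :=
  K < ∑ k, |v i k - v j k| ∧ K < ∑ k, |v i k + v j k|

theorem part1 (K R : ℝ) (hK : 0 ≤ K)
    (h : ∀ (n d : ℕ) (v : Fin n → Fin d → ℝ), InBall v →
      (∀ i j, i ≠ j → Separated v K i j) → HasSigning v R) :
    ∀ (n d : ℕ) (v : Fin n → Fin d → ℝ), InBall v → HasSigning v (K + R) :=
  fun _ d v hv => Pool.Agent.H281K.reduce v K R hK fun J hJ =>
    h J.card d _ (fun _ => hv _) fun a b hab =>
      hJ _ (J.equivFin.symm a).2 _ (J.equivFin.symm b).2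
        (fun h2 => hab (J.equivFin.symm.injective (Subtype.ext h2)))

theorem result :
    ((∀ K R : ℝ, 0 ≤ K →
        (∀ (n d : ℕ) (v : Fin n → Fin d → ℝ), InBall v →
          (∀ i j, i ≠ j → Separated v K i j) → HasSigning v R) →
        ∀ (n d : ℕ) (v : Fin n → Fin d → ℝ), InBall v → HasSigning v (K + R)) ∧
      ∀ K : ℝ, (∃ c : ℝ, ∀ (n d : ℕ) (v : Fin n → Fin d → ℝ), InBall v → HasSigning v c) ↔
        ∃ c : ℝ, ∀ (n d : ℕ) (v : Fin n → Fin d → ℝ), InBall v →
          (∀ i j, i ≠ j → Separated v K i j) → HasSigning v c) ∧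
    (∀ B : ℕ → ℝ, Monotone B →
      (∀ (n d : ℕ) (v : Fin n → Fin d → ℝ), InBall v → HasSigning v (B n)) →
      ∀ (n d : ℕ) (v : Fin n → Fin d → ℝ), InBall v →
      ∀ N : ℕ → ℕ, (∀ l, Covered v (N l) ((1 / 2 : ℝ) ^ l)) →
      ∀ S : ℝ, (∀ K, B (N 0) + 4 * ∑ l ∈ range K, (1 / 2 : ℝ) ^ (l + 1) * B (N (l + 1)) ≤ S) →
      ∀ η : ℝ, 0 < η → HasSigning v (S + η)) ∧
    (∃ C : ℝ, ∀ (n d : ℕ) (v : Fin n → Fin d → ℝ), InBall v → ∀ (K : ℝ) (P : ℕ), 0 ≤ K →
      (∀ J : Finset (Fin n), (∀ i ∈ J, ∀ j ∈ J, i ≠ j → Separated v K i j) → J.card ≤ P) →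
      ∀ N : ℕ → ℕ, (∀ l, Covered v (N l) ((1 / 2 : ℝ) ^ l)) →
      ∀ S : ℝ, (∀ q, ∑ l ∈ range q,
        (1 / 2 : ℝ) ^ l * (1 + Real.log ((min (N l) P : ℕ))) ^ (1 / 4 : ℝ) ≤ S) →
      HasSigning v (K + C * S)) ∧
    (∃ C : ℝ, ∀ p A : ℝ, 0 ≤ p → p < 4 → 0 ≤ A →
      ∀ (n d : ℕ) (v : Fin n → Fin d → ℝ), InBall v →
      (∀ ρ : ℝ, 0 < ρ → ρ ≤ 1 → ∃ N : ℕ, Covered v N ρ ∧ Real.log N ≤ A * ρ ^ (-p)) →
      HasSigning v (C * (1 + A) ^ (1 / 4 : ℝ) / (4 - p))) ∧
    ∃ C : ℝ, ∀ (k M : ℕ) (α L : ℝ), 1 ≤ M → 0 < α → α ≤ 1 → 1 ≤ L →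
      ∀ (d : ℕ) (φ : Fin M → (Fin k → ℝ) → Fin d → ℝ),
      (∀ a, ∀ x ∈ Set.Icc (0 : Fin k → ℝ) 1, ∀ y ∈ Set.Icc (0 : Fin k → ℝ) 1,
        ∑ i, (φ a x i - φ a y i) ^ 2 ≤ (L * dist x y ^ α) ^ 2) →
      ∀ (n : ℕ) (a : Fin n → Fin M) (x : Fin n → Fin k → ℝ),
      (∀ j, x j ∈ Set.Icc (0 : Fin k → ℝ) 1) → InBall (fun j => φ (a j) (x j)) →
      HasSigning (fun j => φ (a j) (x j))
        (C * ((1 + k) * (1 + Real.log L) / α + Real.log M) ^ (1 / 4 : ℝ)) := by
  refine ⟨⟨part1, fun K => ⟨?_, ?_⟩⟩, fun _ hm hB _ _ v hv N hN S hS η hη =>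
      Pool.Agent.H281K.general hB hm v hv N hN S hS η hη, ?_,
    Pool.Agent.H281K.entropy, Pool.Agent.H281K.holder⟩
  · rintro ⟨c, h⟩
    exact ⟨c, fun n d v hv _ => h n d v hv⟩
  · rintro ⟨c, h⟩
    exact ⟨|K| + c, part1 |K| c (abs_nonneg K) fun n d v hv hs => h n d v hv fun i j hij =>
      ⟨lt_of_le_of_lt (le_abs_self K) (hs i j hij).1,
        lt_of_le_of_lt (le_abs_self K) (hs i j hij).2⟩⟩
  · obtain ⟨C, _, h⟩ := Pool.Agent.H281K.dudley_sep
    exact ⟨C, h⟩

end Pool.Agent.Results.MP_c81d26_co.EntropyCondition
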